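import Pool.Agent.H167R3.InvBasic

/-!
# Inversion numbers of dijoins with long ladders of pairs: the vectors of a decycling family
-/

set_option autoImplicit false

namespace Pool.Agent.Run7.h207.INV

open Pool.Agent.H167R3.Inv

/-- the transitive tournament with the order `(0, false), (0, true), (1, false), (1, true), …`, in which the set of the
vertices `(k, true)` is inverted -/
def EArc {M : ℕ} (a b : Fin M × Bool) : Prop :=
  (¬ (a.2 = true ∧ b.2 = true) ∧ (a.1 < b.1 ∨ (a.1 = b.1 ∧ a.2 = false ∧ b.2 = true))) ∨
    ((a.2 = true ∧ b.2 = true) ∧ b.1 < a.1)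

theorem dot_add_left {m : ℕ} (a b c : Fin m → ZMod 2) : dot (a + b) c = dot a c + dot b c := by
  unfold dot
  rw [← Finset.sum_add_distrib]
  exact Finset.sum_congr rfl fun j _ => by rw [Pi.add_apply, add_mul]

theorem dot_add_right {m : ℕ} (a b c : Fin m → ZMod 2) : dot a (b + c) = dot a b + dot a c := by
  rw [dot_comm, dot_add_left, dot_comm b, dot_comm c]

theorem dot_ones {m : ℕ} (a : Fin m → ZMod 2) : dot a (fun _ => 1) = dot a a := by
  unfold dot
  refine Finset.sum_congr rfl fun j _ => ?_
  rcases zmod2_cases (a j) with h | h <;> rw [h] <;> rfl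

/-- **The key lemma.** In a decycling family of `t` sets two pairs of a long ladder have the same vectors; the sum `w` of the
two vectors of a pair has norm `1` and is orthogonal to the vectors of all vertices which dominate, or are dominated by, the
whole ladder. -/
theorem block {V : Type} {A : V → V → Prop} {t : ℕ} {z : V → Fin t → ZMod 2} {f : V → ℕ} (h : Wit A t z f) {M : ℕ}
    (hM : 4 ^ t < M) (e : Fin M × Bool → V) (he : ∀ a b, EArc a b → A (e a) (e b)) :
    ∃ i : Fin M, dot (z (e (i, false)) + z (e (i, true))) (z (e (i, false)) + z (e (i, true))) = 1 ∧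
      ∀ s, ((∀ b, A s (e b)) ∨ ∀ b, A (e b) s) → dot (z s) (z (e (i, false)) + z (e (i, true))) = 0 := by
  obtain ⟨i, j, hij, hzij⟩ : ∃ i j : Fin M, i < j ∧
      (z (e (i, false)), z (e (i, true))) = (z (e (j, false)), z (e (j, true))) := by
    have hc : Fintype.card ((Fin t → ZMod 2) × (Fin t → ZMod 2)) < Fintype.card (Fin M) := by
      rw [Fintype.card_prod, Fintype.card_fun, ZMod.card, Fintype.card_fin, Fintype.card_fin, ← mul_pow]
      exact hM
    obtain ⟨i, j, hne, heq⟩ := Fintype.exists_ne_map_eq_of_card_lt
      (fun i : Fin M => (z (e (i, false)), z (e (i, true)))) hc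
    rcases lt_or_gt_of_ne hne with h1 | h1
    · exact ⟨i, j, h1, heq⟩
    · exact ⟨j, i, h1, heq.symm⟩
  obtain ⟨h0, h1⟩ := Prod.mk.inj hzij
  refine ⟨i, ?_⟩
  set y0 := z (e (i, false)) with hy0
  set y1 := z (e (i, true)) with hy1
  have zi0 : z (e (i, false)) = y0 := rfl
  have zi1 : z (e (i, true)) = y1 := rfl
  have zj0 : z (e (j, false)) = y0 := h0.symm
  have zj1 : z (e (j, true)) = y1 := h1.symm
  have app : ∀ {u v : V}, A u v → dot (z u) (z v) = 0 → f u < f v := fun a b => h _ _ (Or.inl ⟨a, b⟩)
  have app' : ∀ {u v : V}, A u v → dot (z u) (z v) = 1 → f v < f u := fun {u v} a b => h v u (Or.inr ⟨a, by rw [dot_comm]; exact b⟩)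
  -- the arcs
  have a1 : A (e (i, false)) (e (j, false)) := he _ _ (Or.inl ⟨by simp, Or.inl hij⟩)
  have a2 : A (e (i, false)) (e (i, true)) := he _ _ (Or.inl ⟨by simp, Or.inr ⟨rfl, rfl, rfl⟩⟩)
  have a3 : A (e (i, true)) (e (j, false)) := he _ _ (Or.inl ⟨by simp, Or.inl hij⟩)
  have a4 : A (e (j, false)) (e (j, true)) := he _ _ (Or.inl ⟨by simp, Or.inr ⟨rfl, rfl, rfl⟩⟩)
  have a5 : A (e (j, true)) (e (i, true)) := he _ _ (Or.inr ⟨⟨rfl, rfl⟩, hij⟩)
  have b1 := app a1
  have b2 := app a2
  have b3 := app a3
  have b4 := app a4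
  have b5 := app a5
  have c1 := app' a1
  have c2 := app' a2
  have c3 := app' a3
  have c4 := app' a4
  have c5 := app' a5
  rw [zi0, zj0] at b1 c1
  rw [zi0, zi1] at b2 c2
  rw [zi1, zj0] at b3 c3
  rw [zj0, zj1] at b4 c4
  rw [zj1, zi1] at b5 c5
  rw [dot_comm y1 y0] at b3 c3
  have h01 : (0 : ZMod 2) ≠ 1 := by decide
  have norm : dot y0 y0 ≠ dot y1 y1 := by
    intro heq
    rcases zmod2_cases (dot y0 y1) with k | k <;> rcases zmod2_cases (dot y0 y0) with k0 | k0
    · have := b2 k; have := b3 k; have := b4 k; have := b5 (heq ▸ k0); omega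
    · have := b2 k; have := b3 k; have := c1 k0; omega
    · have := c2 k; have := c3 k; have := b1 k0; omega
    · have := c2 k; have := c3 k; have := c4 k; have := c5 (heq ▸ k0); omega
  constructor
  · rw [dot_add_left, dot_add_right, dot_add_right, dot_comm y1 y0]
    rcases zmod2_cases (dot y0 y1) with k | k <;> rcases zmod2_cases (dot y0 y0) with k0 | k0 <;>
      rcases zmod2_cases (dot y1 y1) with k1 | k1 <;> rw [k0, k1] at norm <;> rw [k, k0, k1] <;>
      first | (exact absurd rfl norm) | decide
  · intro s hs
    have goal : dot (z s) y0 = dot (z s) y1 := by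
      rcases hs with hs | hs
      · have d1 := app (hs (i, false))
        have d2 := app (hs (i, true))
        have d3 := app (hs (j, false))
        have d4 := app (hs (j, true))
        have d5 := app' (hs (i, false))
        have d6 := app' (hs (i, true))
        have d7 := app' (hs (j, false))
        have d8 := app' (hs (j, true))
        rw [zi0] at d1 d5
        rw [zi1] at d2 d6
        rw [zj0] at d3 d7
        rw [zj1] at d4 d8
        rcases zmod2_cases (dot (z s) y0) with l0 | l0 <;> rcases zmod2_cases (dot (z s) y1) with l1 | l1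
        · rw [l0, l1]
        · exfalso
          have := d1 l0; have := d3 l0; have := d6 l1; have := d8 l1
          rcases zmod2_cases (dot y0 y1) with k | k
          · have := b2 k; have := b3 k; have := b4 k; omega
          · have := c2 k; have := c3 k; have := c4 k; omega
        · exfalso
          have := d5 l0; have := d7 l0; have := d2 l1; have := d4 l1
          rcases zmod2_cases (dot y0 y1) with k | k
          · have := b2 k; have := b3 k; have := b4 k; omega
          · have := c2 k; have := c3 k; have := c4 k; omega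
        · rw [l0, l1]
      · have d1 := app (hs (i, false))
        have d2 := app (hs (i, true))
        have d3 := app (hs (j, false))
        have d4 := app (hs (j, true))
        have d5 := app' (hs (i, false))
        have d6 := app' (hs (i, true))
        have d7 := app' (hs (j, false))
        have d8 := app' (hs (j, true))
        rw [zi0, dot_comm] at d1 d5
        rw [zi1, dot_comm] at d2 d6
        rw [zj0, dot_comm] at d3 d7
        rw [zj1, dot_comm] at d4 d8
        rcases zmod2_cases (dot (z s) y0) with l0 | l0 <;> rcases zmod2_cases (dot (z s) y1) with l1 | l1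
        · rw [l0, l1]
        · exfalso
          have := d1 l0; have := d3 l0; have := d6 l1; have := d8 l1
          rcases zmod2_cases (dot y0 y1) with k | k
          · have := b2 k; have := b3 k; have := b4 k; omega
          · have := c2 k; have := c3 k; have := c4 k; omega
        · exfalso
          have := d5 l0; have := d7 l0; have := d2 l1; have := d4 l1
          rcases zmod2_cases (dot y0 y1) with k | k
          · have := b2 k; have := b3 k; have := b4 k; omega
          · have := c2 k; have := c3 k; have := c4 k; omega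
        · rw [l0, l1]
    rw [dot_add_right, goal]
    rcases zmod2_cases (dot (z s) y1) with l | l <;> rw [l] <;> decide

/-- **Reduction.** Orthogonal complement of a vector of norm one which has a zero coordinate. -/
theorem reduce {t : ℕ} (w : Fin (t + 1) → ZMod 2) (hw : dot w w = 1) (j : Fin (t + 1)) (hj : w j = 0) :
    ∃ φ : (Fin (t + 1) → ZMod 2) → (Fin t → ZMod 2), ∀ a b, dot a w = 0 → dot b w = 0 → dot (φ a) (φ b) = dot a b := by
  refine ⟨fun a k => a (j.succAbove k) + a j * w (j.succAbove k), fun a b ha hb => ?_⟩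
  unfold dot at *
  rw [Fin.sum_univ_succAbove _ j] at ha hb hw ⊢
  rw [hj] at ha hb hw
  simp only [mul_zero, zero_add] at ha hb hw
  have e : ∀ k, (a (j.succAbove k) + a j * w (j.succAbove k)) * (b (j.succAbove k) + b j * w (j.succAbove k)) =
      a (j.succAbove k) * b (j.succAbove k) + b j * (a (j.succAbove k) * w (j.succAbove k)) +
        a j * (b (j.succAbove k) * w (j.succAbove k)) + a j * b j * (w (j.succAbove k) * w (j.succAbove k)) := by
    intro k; ring
  rw [Finset.sum_congr rfl fun k _ => e k, Finset.sum_add_distrib, Finset.sum_add_distrib, Finset.sum_add_distrib,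
    ← Finset.mul_sum, ← Finset.mul_sum, ← Finset.mul_sum, ha, hb, hw]
  ring

/-- `m` orthonormal vectors, orthogonal to all `Z u`: all but one of them can be split off. -/
theorem reduce_many {V : Type} : ∀ (m t : ℕ) (w : Fin (m + 1) → Fin t → ZMod 2) (Z : V → Fin t → ZMod 2),
    (∀ i, dot (w i) (w i) = 1) → (∀ i j, i ≠ j → dot (w i) (w j) = 0) → (∀ u i, dot (Z u) (w i) = 0) →
    ∃ t' : ℕ, t' + m = t ∧ ∃ (Z' : V → Fin t' → ZMod 2) (w' : Fin t' → ZMod 2),
      (∀ u v, dot (Z' u) (Z' v) = dot (Z u) (Z v)) ∧ dot w' w' = 1 ∧ ∀ u, dot (Z' u) w' = 0 := by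
  intro m
  induction m with
  | zero =>
    intro t w Z h1 _ h3
    exact ⟨t, rfl, Z, w 0, fun _ _ => rfl, h1 0, fun u => h3 u 0⟩
  | succ m ih =>
    intro t w Z h1 h2 h3
    have ht : t ≠ 0 := by
      rintro rfl
      have := h1 0
      unfold dot at this
      simp at this
    obtain ⟨t0, rfl⟩ := Nat.exists_eq_succ_of_ne_zero ht
    have hz : ∃ j, w (Fin.last (m + 1)) j = 0 := by
      by_contra hcon
      push Not at hcon
      have h4 : w (Fin.last (m + 1)) = fun _ => 1 := by
        funext j
        rcases zmod2_cases (w (Fin.last (m + 1)) j) with h | h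
        · exact absurd h (hcon j)
        · exact h
      have h5 := h2 0 (Fin.last (m + 1)) (by
        intro h
        have := congrArg Fin.val h
        simp at this)
      rw [h4, dot_ones, h1 0] at h5
      exact absurd h5 (by decide)
    obtain ⟨j, hj⟩ := hz
    obtain ⟨φ, hφ⟩ := reduce (w (Fin.last (m + 1))) (h1 _) j hj
    have hl : ∀ i : Fin (m + 1), dot (w i.castSucc) (w (Fin.last (m + 1))) = 0 := fun i => h2 _ _ (Fin.castSucc_lt_last i).ne
    obtain ⟨t', ht', Z', w', g1, g2, g3⟩ := ih t0 (fun i => φ (w i.castSucc)) (fun u => φ (Z u))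
      (fun i => by rw [hφ _ _ (hl i) (hl i)]; exact h1 _)
      (fun i j hij => by
        rw [hφ _ _ (hl i) (hl j)]
        exact h2 _ _ (fun h => hij (Fin.castSucc_injective _ h)))
      (fun u i => by rw [hφ _ _ (h3 u _) (hl i)]; exact h3 u _)
    refine ⟨t', by omega, Z', w', fun u v => ?_, g2, g3⟩
    rw [g1 u v, hφ _ _ (h3 u _) (h3 v _)]

end Pool.Agent.Run7.h207.INV
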