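import Pool.Agent.Run7.h207.INV.Block

/-!
# Inversion numbers of dijoins: upper bounds, and lower bounds for joins of ladders
-/

set_option autoImplicit false

namespace Pool.Agent.Run7.h207.INV

open Pool.Agent.H167R3.Inv

/-- the dijoin -/
def Dijoin {V W : Type} (A : V → V → Prop) (B : W → W → Prop) : V ⊕ W → V ⊕ W → Prop
  | Sum.inl a, Sum.inl b => A a b
  | Sum.inr a, Sum.inr b => B a b
  | Sum.inl _, Sum.inr _ => True
  | Sum.inr _, Sum.inl _ => False

theorem join_wit {V W : Type} [Finite V] {A : V → V → Prop} {B : W → W → Prop} {T : ℕ} {x : V → Fin T → ZMod 2}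
    {y : W → Fin T → ZMod 2} {f : V → ℕ} {g : W → ℕ} (hA : Wit A T x f) (hB : Wit B T y g)
    (hxy : ∀ u v, dot (x u) (y v) = 0) : T ∈ InvSet (Dijoin A B) := by
  obtain ⟨N, hN⟩ := (Set.finite_range f).bddAbove
  have hN' : ∀ u, f u ≤ N := fun u => hN ⟨u, rfl⟩
  refine mem_of_wit (z := Sum.elim x y) (f := Sum.elim f fun v => N + 1 + g v) ?_
  rintro (u | u) (v | v) h
  · exact hA u v h
  · have := hN' u
    simp only [Sum.elim_inl, Sum.elim_inr]
    omega
  · exfalso
    rcases h with ⟨h, _⟩ | ⟨_, h⟩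
    · exact h
    · simp only [Sum.elim_inl, Sum.elim_inr] at h
      rw [dot_comm, hxy] at h
      exact absurd h (by decide)
  · have := hB u v h
    simp only [Sum.elim_inr]
    omega

theorem dot_append {a b : ℕ} (x x' : Fin a → ZMod 2) (y y' : Fin b → ZMod 2) :
    dot (Fin.append x y) (Fin.append x' y') = dot x x' + dot y y' := by
  unfold dot
  rw [Fin.sum_univ_add]
  congr 1
  · exact Finset.sum_congr rfl fun i _ => by rw [Fin.append_left, Fin.append_left]
  · exact Finset.sum_congr rfl fun i _ => by rw [Fin.append_right, Fin.append_right]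

theorem dot_zero_left {m : ℕ} (a : Fin m → ZMod 2) : dot 0 a = 0 := by
  unfold dot
  simp

theorem dot_zero_right {m : ℕ} (a : Fin m → ZMod 2) : dot a 0 = 0 := by
  rw [dot_comm, dot_zero_left]

theorem Wit.congr {V : Type} {A : V → V → Prop} {m m' : ℕ} {z : V → Fin m → ZMod 2} {z' : V → Fin m' → ZMod 2} {f : V → ℕ}
    (h : Wit A m z f) (hz : ∀ u v, dot (z' u) (z' v) = dot (z u) (z v)) : Wit A m' z' f := by
  intro u v huv
  rw [hz] at huv
  exact h u v huv

/-- subadditivity, both orders -/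
theorem upper {V W : Type} [Finite V] [Finite W] {A : V → V → Prop} {B : W → W → Prop} {k l : ℕ}
    (hk : k ∈ InvSet A) (hl : l ∈ InvSet B) : k + l ∈ InvSet (Dijoin A B) ∧ k + l ∈ InvSet (Dijoin B A) := by
  obtain ⟨x, f, hx⟩ := wit_of_mem hk
  obtain ⟨y, g, hy⟩ := wit_of_mem hl
  have h1 : Wit A (k + l) (fun u => Fin.append (x u) 0) f := Wit.congr hx fun u v => by
    rw [dot_append, dot_zero_left, add_zero]
  have h2 : Wit B (k + l) (fun u => Fin.append 0 (y u)) g := Wit.congr hy fun u v => by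
    rw [dot_append, dot_zero_left, zero_add]
  have h3 : ∀ u v, dot (Fin.append (x u) (0 : Fin l → ZMod 2)) (Fin.append (0 : Fin k → ZMod 2) (y v)) = 0 := by
    intro u v
    rw [dot_append, dot_zero_left, dot_zero_right, add_zero]
  exact ⟨join_wit h1 h2 h3, join_wit h2 h1 fun u v => by rw [dot_comm]; exact h3 v u⟩

/-- the better bound if `A` has a decycling family of an odd number of sets, each vertex being in an even number of them -/
theorem upper_even {V W : Type} [Finite V] [Finite W] {A : V → V → Prop} {B : W → W → Prop} {k l : ℕ} (hk : Odd k)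
    {x : V → Fin k → ZMod 2} {f : V → ℕ} (hx : Wit A k x f) (hx0 : ∀ u, dot (x u) (x u) = 0) (hl : l + 1 ∈ InvSet B) :
    k + l ∈ InvSet (Dijoin A B) ∧ k + l ∈ InvSet (Dijoin B A) := by
  obtain ⟨y, g, hy⟩ := wit_of_mem hl
  have h1 : Wit A (k + l) (fun u => Fin.append (x u) 0) f := Wit.congr hx fun u v => by
    rw [dot_append, dot_zero_left, add_zero]
  have h2 : Wit B (k + l) (fun u => Fin.append (fun _ => y u 0) (fun i => y u i.succ)) g := Wit.congr hy fun u v => by
    rw [dot_append]
    have e1 : dot (fun _ : Fin k => y u 0) (fun _ => y v 0) = y u 0 * y v 0 := by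
      unfold dot
      rw [Finset.sum_const, Finset.card_univ, Fintype.card_fin, nsmul_eq_mul]
      have : (k : ZMod 2) = 1 := ZMod.natCast_eq_one_iff_odd.2 hk
      rw [this, one_mul]
    rw [e1]
    unfold dot
    rw [Fin.sum_univ_succ]
  have h3 : ∀ u v, dot (Fin.append (x u) (0 : Fin l → ZMod 2)) (Fin.append (fun _ : Fin k => y v 0) (fun i => y v i.succ)) = 0 := by
    intro u v
    rw [dot_append, dot_zero_left, add_zero]
    rcases zmod2_cases (y v 0) with h | h
    · rw [h]
      exact dot_zero_right _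
    · rw [h, dot_ones]
      exact hx0 u
  exact ⟨join_wit h1 h2 h3, join_wit h2 h1 fun u v => by rw [dot_comm]; exact h3 v u⟩

/-- the join of `m` ladders with `M` pairs each -/
def EM (m M : ℕ) (a b : Fin m × (Fin M × Bool)) : Prop := a.1 < b.1 ∨ (a.1 = b.1 ∧ EArc a.2 b.2)

theorem EM_upper (m M : ℕ) : m ∈ InvSet (EM m M) := by
  classical
  refine mem_of_wit (z := fun a : Fin m × (Fin M × Bool) => if a.2.2 = true then Pi.single a.1 1 else 0)
    (f := fun a => (a.1.val * M + a.2.1.val) * 2 + (if a.2.2 = true then 1 else 0)) ?_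
  have hdot : ∀ a b : Fin m × (Fin M × Bool), dot (if a.2.2 = true then Pi.single a.1 (1 : ZMod 2) else 0)
      (if b.2.2 = true then Pi.single b.1 1 else 0) = if a.2.2 = true ∧ b.2.2 = true ∧ a.1 = b.1 then 1 else 0 := by
    intro a b
    by_cases ha : a.2.2 = true
    · by_cases hb : b.2.2 = true
      · rw [if_pos ha, if_pos hb]
        unfold dot
        simp only [Pi.single_apply, ha, hb, true_and]
        by_cases hab : a.1 = b.1
        · rw [if_pos hab, hab]
          simp
        · rw [if_neg hab]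
          refine Finset.sum_eq_zero fun i _ => ?_
          by_cases h : i = a.1
          · rw [if_pos h, if_neg (fun h' => hab (h ▸ h')), mul_zero]
          · rw [if_neg h, zero_mul]
      · rw [if_neg hb, dot_zero_right, if_neg (fun h => hb h.2.1)]
    · rw [if_neg ha, dot_zero_left, if_neg (fun h => ha h.1)]
  have hval : ∀ a b : Fin m × (Fin M × Bool), a.1 < b.1 → a.1.val * M + M ≤ b.1.val * M := by
    intro a b h
    have : (a.1.val + 1) * M ≤ b.1.val * M := Nat.mul_le_mul_right M h
    calc _ = (a.1.val + 1) * M := by ring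
      _ ≤ _ := this
  intro u v huv
  beta_reduce at huv ⊢
  rw [hdot] at huv
  have hu := u.2.1.isLt
  have hv := v.2.1.isLt
  have b1 : (if u.2.2 = true then 1 else 0 : ℕ) ≤ 1 := by split_ifs <;> omega
  have b2 : (if v.2.2 = true then 1 else 0 : ℕ) ≤ 1 := by split_ifs <;> omega
  rcases huv with ⟨h1, h2⟩ | ⟨h1, h2⟩
  · rcases h1 with h1 | ⟨h1, h3⟩
    · have := hval u v h1
      omega
    · have hne : ¬ (u.2.2 = true ∧ v.2.2 = true) := by
        intro h
        rw [if_pos ⟨h.1, h.2, h1⟩] at h2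
        exact absurd h2 (by decide)
      rcases h3 with ⟨_, h3⟩ | ⟨h3, _⟩
      · rw [h1]
        rcases h3 with h3 | ⟨h3, h4, h5⟩
        · have : u.2.1.val < v.2.1.val := h3
          omega
        · rw [h3, h4, h5]
          simp
      · exact absurd h3 hne
  · have hh : u.2.2 = true ∧ v.2.2 = true ∧ u.1 = v.1 := by
      by_contra hcon
      rw [if_neg hcon] at h2
      exact absurd h2 (by decide)
    obtain ⟨hu2, hv2, h3⟩ := hh
    rcases h1 with h1 | ⟨_, h4⟩
    · rw [h3] at h1
      exact absurd h1 (lt_irrefl _)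
    · rcases h4 with ⟨h4, _⟩ | ⟨_, h4⟩
      · exact absurd ⟨hv2, hu2⟩ h4
      · rw [h3, hu2, hv2]
        have : u.2.1.val < v.2.1.val := h4
        simp only [if_true]
        omega

/-- the lower bound -/
theorem lower {U V : Type} {C : U → U → Prop} {A : V → V → Prop} {m M t : ℕ} (hM : 4 ^ t < M)
    (ht : t ∈ InvSet C) (e : Fin (m + 1) × (Fin M × Bool) → U) (he : ∀ a b, EM (m + 1) M a b → C (e a) (e b))
    (g : V → U) (hg : ∀ u v, A u v → C (g u) (g v)) (hge : ∀ u, (∀ b, C (g u) (e b)) ∨ ∀ b, C (e b) (g u)) :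
    ∃ t' : ℕ, t' + m = t ∧ ∃ (Z : V → Fin t' → ZMod 2) (f : V → ℕ) (w : Fin t' → ZMod 2),
      Wit A t' Z f ∧ dot w w = 1 ∧ ∀ u, dot (Z u) w = 0 := by
  obtain ⟨z, f, hz⟩ := wit_of_mem ht
  have hb : ∀ i : Fin (m + 1), ∃ k : Fin M,
      dot (z (e (i, k, false)) + z (e (i, k, true))) (z (e (i, k, false)) + z (e (i, k, true))) = 1 ∧
      ∀ s, ((∀ b, C s (e (i, b))) ∨ ∀ b, C (e (i, b)) s) →
        dot (z s) (z (e (i, k, false)) + z (e (i, k, true))) = 0 := fun i =>
    block hz hM (fun b => e (i, b)) (fun a b hab => he _ _ (Or.inr ⟨rfl, hab⟩))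
  choose k hk1 hk2 using hb
  obtain ⟨t', ht', Z, w, h1, h2, h3⟩ := reduce_many m t (fun i => z (e (i, k i, false)) + z (e (i, k i, true)))
    (fun u => z (g u)) hk1 (fun i j hij => by
      have key : ∀ b, dot (z (e (i, b))) (z (e (j, k j, false)) + z (e (j, k j, true))) = 0 := by
        intro b
        refine hk2 j _ ?_
        rcases lt_or_gt_of_ne hij with h | h
        · exact Or.inl fun c => he _ _ (Or.inl h)
        · exact Or.inr fun c => he _ _ (Or.inl h)
      rw [dot_add_left, key, key, add_zero])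
    (fun u i => hk2 i _ ((hge u).imp (fun h b => h _) (fun h b => h _)))
  refine ⟨t', ht', Z, fun v => f (g v), w, ?_, h2, h3⟩
  intro u v huv
  rw [h1] at huv
  exact hz _ _ (huv.imp (fun h => ⟨hg _ _ h.1, h.2⟩) (fun h => ⟨hg _ _ h.1, h.2⟩))

end Pool.Agent.Run7.h207.INV
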